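import Pool.Agent.L7h51.BE.Samp

set_option autoImplicit false
set_option linter.unusedSectionVars false
set_option maxHeartbeats 4000000

/-! Cayley graphs of finite abelian groups. -/

namespace Pool.Agent.L7h51.BE

open Finset
open scoped Classical ComplexConjugate

noncomputable section

/-- explicit bound of the product -/
lemma Psi_lower (n : ℕ) (u : ℝ) (hu : 0 ≤ u) (hu3 : u ≤ 1 / 3) :
    (1 - 2 * u) * (1 - u) ^ n ≤ Psi n u := by
  have key : ∀ n : ℕ, (1 - 2 * u) * (1 - u) ^ n * (1 - u * (1 - (1 / 2) ^ n)) ≤ Psi (n + 1) u := by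
    intro n
    induction n with
    | zero =>
      have : Psi (0 + 1) u = fac 0 u := by unfold Psi; simp
      rw [this]
      unfold fac
      refine le_trans (le_of_eq ?_) (le_max_right _ _)
      norm_num
      ring
    | succ n ih =>
      rw [Psi_succ]
      have h1 : 0 ≤ (1 - 2 * u) * (1 - u) ^ n := mul_nonneg (by linarith) (pow_nonneg (by linarith) n)
      have hx : (0 : ℝ) < (1 / 2) ^ (n + 1) := by positivity
      have hx2 : (1 / 2 : ℝ) ^ (n + 1) ≤ 1 / 2 := half_pow n
      have hx3 : (1 / 2 : ℝ) ^ (n + 1 + 1) = (1 / 2) ^ (n + 1) / 2 := by rw [pow_succ]; ring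
      have hx4 : (1 / 2 : ℝ) ^ n = 2 * (1 / 2) ^ (n + 1) := by rw [pow_succ]; ring
      have h2 : 1 - u - 4 / 3 * u * ((1 / 2) ^ (n + 1) / 2) ≤ fac (n + 1) u := by
        unfold fac
        refine le_trans ?_ (le_max_right _ _)
        rw [hx3]
        have h3 : u / (1 - (1 / 2 : ℝ) ^ (n + 1) / 2) ≤ u + 4 / 3 * u * ((1 / 2) ^ (n + 1) / 2) := by
          rw [div_le_iff₀ (by linarith)]
          nlinarith [mul_nonneg hu hx.le, mul_nonneg (mul_nonneg hu hx.le) (sub_nonneg.2 hx2)]
        linarith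
      have hb0 : 0 ≤ 1 - u * (1 - (1 / 2) ^ n) := by rw [hx4]; nlinarith
      have hb1 : 1 - u * (1 - (1 / 2) ^ n) ≤ 1 := by rw [hx4]; nlinarith
      have hf := fac_nonneg (n + 1) u
      calc (1 - 2 * u) * (1 - u) ^ (n + 1) * (1 - u * (1 - (1 / 2) ^ (n + 1)))
          = ((1 - 2 * u) * (1 - u) ^ n) * ((1 - u) * (1 - u * (1 - (1 / 2) ^ (n + 1)))) := by
            rw [pow_succ (1 - u) n]; ring
        _ ≤ ((1 - 2 * u) * (1 - u) ^ n) * ((1 - u * (1 - (1 / 2) ^ n)) *
            (1 - u - 4 / 3 * u * ((1 / 2) ^ (n + 1) / 2))) := by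
            apply mul_le_mul_of_nonneg_left _ h1
            rw [hx4]
            nlinarith [mul_nonneg hu hx.le, mul_nonneg (mul_nonneg hu hu) hx.le,
              mul_nonneg (mul_nonneg (mul_nonneg hu hu) hx.le) (sub_nonneg.2 hx2)]
        _ ≤ ((1 - 2 * u) * (1 - u) ^ n) * ((1 - u * (1 - (1 / 2) ^ n)) * fac (n + 1) u) := by
            apply mul_le_mul_of_nonneg_left _ h1
            exact mul_le_mul_of_nonneg_left h2 hb0
        _ = ((1 - 2 * u) * (1 - u) ^ n * (1 - u * (1 - (1 / 2) ^ n))) * fac (n + 1) u := by ring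
        _ ≤ Psi (n + 1) u * fac (n + 1) u := mul_le_mul_of_nonneg_right ih hf
  rcases n with _ | n
  · unfold Psi; simp; linarith
  · refine le_trans ?_ (key n)
    have h1 : 0 ≤ (1 - 2 * u) * (1 - u) ^ n := mul_nonneg (by linarith) (pow_nonneg (by linarith) n)
    rw [pow_succ, ← mul_assoc]
    apply mul_le_mul_of_nonneg_left _ h1
    have : (0 : ℝ) ≤ (1 / 2) ^ n := by positivity
    nlinarith

/-! ### Weighted graphs -/

section

variable {V : Type} [Fintype V]

/-- weight of the internal moves -/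
def stay (P : V → V → ℝ) (A : Finset V) : ℝ := ∑ x ∈ A, ∑ y ∈ A, P x y

lemma stay_mono {P : V → V → ℝ} (hP : ∀ x y, 0 ≤ P x y) {A B : Finset V} (h : A ⊆ B) :
    stay P A ≤ stay P B := by
  unfold stay
  calc ∑ x ∈ A, ∑ y ∈ A, P x y ≤ ∑ x ∈ A, ∑ y ∈ B, P x y :=
        Finset.sum_le_sum fun x _ => Finset.sum_le_sum_of_subset_of_nonneg h fun y _ _ => hP x y
    _ ≤ ∑ x ∈ B, ∑ y ∈ B, P x y :=
        Finset.sum_le_sum_of_subset_of_nonneg h fun x _ _ => Finset.sum_nonneg fun y _ => hP x y

lemma stay_erase {P : V → V → ℝ} (hsym : ∀ x y, P x y = P y x) (hd : ∀ x, P x x = 0)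
    (A : Finset V) (a : V) (ha : a ∈ A) :
    stay P (A.erase a) = stay P A - 2 * ∑ y ∈ A, P a y := by
  have h1 : stay P A = stay P (A.erase a) + 2 * ∑ y ∈ A.erase a, P a y := by
    unfold stay
    rw [← Finset.add_sum_erase A _ ha, ← Finset.add_sum_erase A (fun y => P a y) ha, hd]
    have h2 : ∀ x ∈ A.erase a, ∑ y ∈ A, P x y = P x a + ∑ y ∈ A.erase a, P x y := by
      intro x _
      rw [← Finset.add_sum_erase A (fun y => P x y) ha]
    rw [Finset.sum_congr rfl h2, Finset.sum_add_distrib]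
    have h3 : ∑ x ∈ A.erase a, P x a = ∑ x ∈ A.erase a, P a x :=
      Finset.sum_congr rfl fun x _ => hsym x a
    rw [h3]; ring
  have h2 : ∑ y ∈ A, P a y = ∑ y ∈ A.erase a, P a y := by
    rw [← Finset.add_sum_erase A (fun y => P a y) ha, hd]; ring
  rw [h2]; linarith

/-- smaller subsets which keep their share of the edges -/
lemma shrink {P : V → V → ℝ} (hP : ∀ x y, 0 ≤ P x y) (hsym : ∀ x y, P x y = P y x)
    (hd : ∀ x, P x x = 0) (t : ℕ) (ht : 2 ≤ t) :
    ∀ (k : ℕ) (A : Finset V), A.card = t + k →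
      ∃ S : Finset V, S.card = t ∧
        stay P A * (t * (t - 1)) ≤ stay P S * (A.card * (A.card - 1)) := by
  intro k
  induction k with
  | zero => intro A hA; exact ⟨A, by simpa using hA, by rw [hA]; simp⟩
  | succ k ih =>
    intro A hA
    have hne : A.Nonempty := by rw [← Finset.card_pos]; omega
    obtain ⟨a, ha, hmin⟩ := Finset.exists_min_image A (fun x => ∑ y ∈ A, P x y) hne
    have h1 : (A.card : ℝ) * ∑ y ∈ A, P a y ≤ stay P A := by
      unfold stay
      rw [← nsmul_eq_mul, ← Finset.sum_const]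
      exact Finset.sum_le_sum fun x hx => hmin x hx
    have hc : (A.erase a).card = t + k := by rw [Finset.card_erase_of_mem ha, hA]; omega
    obtain ⟨S, hS, hSt⟩ := ih (A.erase a) hc
    refine ⟨S, hS, ?_⟩
    have h2 := stay_erase hsym hd A a ha
    have ht2 : (2 : ℝ) ≤ t := by exact_mod_cast ht
    have hAc : (A.card : ℝ) = t + k + 1 := by rw [hA]; push_cast; ring
    have hec : ((A.erase a).card : ℝ) = t + k := by rw [hc]; push_cast; ring
    have hk : (0 : ℝ) ≤ k := Nat.cast_nonneg _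
    rw [hec, h2] at hSt
    rw [hAc] at h1 ⊢
    set m : ℝ := t + k with hm
    have hm2 : 2 ≤ m := by linarith
    -- (stay A)(m-1) ≤ (m+1) (stay A - 2 deg)
    have h3 : stay P A * (m - 1) ≤ (m + 1) * (stay P A - 2 * ∑ y ∈ A, P a y) := by nlinarith
    have h4 : 0 ≤ (t : ℝ) * (t - 1) := by nlinarith
    have h5 : stay P A * (m - 1) * (t * (t - 1)) ≤
        (m + 1) * (stay P A - 2 * ∑ y ∈ A, P a y) * (t * (t - 1)) :=
      mul_le_mul_of_nonneg_right h3 h4
    have h6 : (m + 1) * ((stay P A - 2 * ∑ y ∈ A, P a y) * (t * (t - 1))) ≤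
        (m + 1) * (stay P S * (m * (m - 1))) := mul_le_mul_of_nonneg_left hSt (by linarith)
    have h7 : (m - 1) * (stay P A * (t * (t - 1))) ≤ (m - 1) * (stay P S * ((m + 1) * (m + 1 - 1))) := by
      linarith
    exact le_of_mul_le_mul_left h7 (by linarith)

end

/-! ### Cayley graphs -/

/-- The Cayley graph of `G` with connection set `S`. -/
def cay {G : Type} [AddCommGroup G] (S : Finset G) (hS : ∀ s ∈ S, -s ∈ S) (h0 : (0 : G) ∉ S) :
    SimpleGraph G where
  Adj x y := y - x ∈ S
  symm := ⟨fun x y h => by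
    have := hS _ h
    rwa [neg_sub] at this⟩
  loopless := ⟨fun x h => h0 (by simpa using h)⟩

/-- The number of edges of `Γ` with exactly one endpoint in `A`, counted as ordered pairs
`(x,y)` with `x ∈ A`, `y ∉ A`. -/
def cut {V : Type} [Fintype V] (Γ : SimpleGraph V) (A : Finset V) : ℕ :=
  (univ.filter fun p : V × V => p.1 ∈ A ∧ p.2 ∉ A ∧ Γ.Adj p.1 p.2).card

/-- The expansion `|E(A, V∖A)|/(d|A|)` in a `d`-regular graph. -/
def expansion {V : Type} [Fintype V] (Γ : SimpleGraph V) (d : ℕ) (A : Finset V) : ℝ :=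
  (cut Γ A : ℝ) / (d * A.card)

/-- Yes instances of `SSE(η,δ)` for the `d`-regular graph `Γ`. -/
def SseYes {V : Type} [Fintype V] (Γ : SimpleGraph V) (d : ℕ) (eta del : ℝ) : Prop :=
  ∃ A : Finset V, A.Nonempty ∧ (A.card : ℝ) = del * Fintype.card V ∧ expansion Γ d A ≤ eta

/-- No instances of `SSE(η,δ)` for the `d`-regular graph `Γ`. -/
def SseNo {V : Type} [Fintype V] (Γ : SimpleGraph V) (d : ℕ) (eta del : ℝ) : Prop :=
  ∀ A : Finset V, A.Nonempty → (A.card : ℝ) = del * Fintype.card V → 1 - eta ≤ expansion Γ d A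

variable {G : Type} [AddCommGroup G] [Fintype G]

/-- transition probabilities -/
def Pc (S : Finset G) (x y : G) : ℝ := if y - x ∈ S then 1 / (S.card : ℝ) else 0

lemma Pc_nonneg (S : Finset G) (x y : G) : 0 ≤ Pc S x y := by unfold Pc; split_ifs <;> positivity

lemma Pc_symm (S : Finset G) (hS : ∀ s ∈ S, -s ∈ S) (x y : G) : Pc S x y = Pc S y x := by
  unfold Pc
  have : y - x ∈ S ↔ x - y ∈ S := by
    constructor
    · intro h; have := hS _ h; rwa [neg_sub] at this
    · intro h; have := hS _ h; rwa [neg_sub] at this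
  simp only [this]

lemma Pc_self (S : Finset G) (h0 : (0 : G) ∉ S) (x : G) : Pc S x x = 0 := by
  unfold Pc; simp [h0]

lemma Pc_row (S : Finset G) (hne : S.Nonempty) (x : G) : ∑ y, Pc S x y = 1 := by
  have hSc : (0 : ℝ) < S.card := by exact_mod_cast hne.card_pos
  have h1 : ∑ y, Pc S x y = ∑ s : G, (if s ∈ S then 1 / (S.card : ℝ) else 0) := by
    refine Fintype.sum_equiv (Equiv.subRight x) _ _ fun y => ?_
    rfl
  rw [h1, ← Finset.sum_filter, Finset.filter_mem_eq_inter, Finset.univ_inter, Finset.sum_const,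
    nsmul_eq_mul]
  field_simp

lemma expansion_stay (S : Finset G) (hS : ∀ s ∈ S, -s ∈ S) (h0 : (0 : G) ∉ S) (hne : S.Nonempty)
    (A : Finset G) (hA : A.Nonempty) :
    expansion (cay S hS h0) S.card A = 1 - stay (Pc S) A / A.card := by
  have hSc : (0 : ℝ) < S.card := by exact_mod_cast hne.card_pos
  have hA0 : (0 : ℝ) < A.card := by exact_mod_cast hA.card_pos
  have h1 : (cut (cay S hS h0) A : ℝ) = S.card * ∑ x ∈ A, ∑ y ∈ univ \ A, Pc S x y := by
    unfold cut
    rw [Finset.card_filter]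
    push_cast
    rw [← Finset.univ_product_univ, Finset.sum_product,
      ← Finset.sum_subset (Finset.subset_univ A)]
    · rw [Finset.mul_sum]
      refine Finset.sum_congr rfl fun x hx => ?_
      rw [← Finset.sum_subset (Finset.subset_univ (univ \ A)), Finset.mul_sum]
      · refine Finset.sum_congr rfl fun y hy => ?_
        have hy' : y ∉ A := by simpa using hy
        unfold Pc
        by_cases h : y - x ∈ S
        · simp [hx, hy', cay, h, hSc.ne']
        · simp [hx, hy', cay, h]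
      · intro y _ hy
        have hy' : y ∈ A := by simpa using hy
        simp [hy']
    · intro x _ hx
      simp [hx]
  have h2 : ∑ x ∈ A, ∑ y ∈ univ \ A, Pc S x y + stay (Pc S) A = A.card := by
    unfold stay
    rw [← Finset.sum_add_distrib]
    have : ∀ x ∈ A, ∑ y ∈ univ \ A, Pc S x y + ∑ y ∈ A, Pc S x y = 1 := by
      intro x _
      rw [Finset.sum_sdiff (Finset.subset_univ A)]
      exact Pc_row S hne x
    rw [Finset.sum_congr rfl this]; simp
  unfold expansion
  rw [h1]
  field_simp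
  linarith

/-- expansion as a sum over the generators -/
lemma expansion_gen (S : Finset G) (hS : ∀ s ∈ S, -s ∈ S) (h0 : (0 : G) ∉ S) (hne : S.Nonempty)
    (A : Finset G) (hA : A.Nonempty) :
    expansion (cay S hS h0) S.card A =
      ∑ s, (if s ∈ S then 1 / (S.card : ℝ) else 0) * (((A.filter fun x => x + s ∉ A).card : ℝ) / A.card) := by
  have hSc : (0 : ℝ) < S.card := by exact_mod_cast hne.card_pos
  have hA0 : (0 : ℝ) < A.card := by exact_mod_cast hA.card_pos
  have h1 : (cut (cay S hS h0) A : ℝ)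
      = ∑ s, (if s ∈ S then (1 : ℝ) else 0) * ((A.filter fun x => x + s ∉ A).card : ℝ) := by
    unfold cut
    have h1 : ∀ s, (if s ∈ S then (1 : ℝ) else 0) * ((A.filter fun x => x + s ∉ A).card : ℝ)
        = ∑ x, if x ∈ A ∧ x + s ∉ A ∧ s ∈ S then (1 : ℝ) else 0 := by
      intro s
      rw [Finset.card_filter]
      push_cast
      rw [Finset.mul_sum]
      rw [← Finset.sum_subset (Finset.subset_univ A)]
      · refine Finset.sum_congr rfl fun x hx => ?_
        by_cases h1 : s ∈ S <;> by_cases h2 : x + s ∈ A <;> simp [h1, h2, hx]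
      · intro x _ hx
        simp [hx]
    simp_rw [h1]
    rw [Finset.sum_comm, Finset.card_filter]
    push_cast
    rw [← Finset.univ_product_univ, Finset.sum_product]
    refine Finset.sum_congr rfl fun x _ => ?_
    symm
    refine Fintype.sum_equiv (Equiv.addLeft x) _ _ fun s => ?_
    simp only [Equiv.coe_addLeft, cay, add_sub_cancel_left]
  unfold expansion
  rw [h1, Finset.sum_div]
  refine Finset.sum_congr rfl fun s _ => ?_
  by_cases h : s ∈ S
  · rw [if_pos h, if_pos h]; field_simp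
  · rw [if_neg h, if_neg h]; simp

/-- **Subgroups from sets.** -/
theorem subgroup_of_set (S : Finset G) (hS : ∀ s ∈ S, -s ∈ S) (h0 : (0 : G) ∉ S) (hne : S.Nonempty)
    (r : ℕ) (hr : 2 ≤ r) (hrS : ∀ s ∈ S, r • s = 0) (A : Finset G) (hA : A.Nonempty) (eta : ℝ)
    (hexp : expansion (cay S hS h0) S.card A ≤ eta) (n : ℕ)
    (hn : (Fintype.card G : ℝ) ≤ 2 ^ (n + 1) * A.card) :
    ∃ χ : Fin n → AddChar G ℂ, (Nat.card (kerAll χ) : ℝ) ≤ 2 * A.card ∧
      Psi n (eta / (1 - Real.cos (2 * Real.pi / r))) ≤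
        ((S.filter fun s => s ∈ kerAll χ).card : ℝ) / S.card := by
  have hSc : (0 : ℝ) < S.card := by exact_mod_cast hne.card_pos
  have hc := cos_lt_one r hr
  have hc0 : 0 < 1 - Real.cos (2 * Real.pi / r) := by linarith
  let μ : G → ℝ := fun s => if s ∈ S then 1 / (S.card : ℝ) else 0
  have hμ : ∀ s, 0 ≤ μ s := by intro s; simp only [μ]; split_ifs <;> positivity
  have hμ1 : ∑ s, μ s = 1 := by
    simp only [μ]
    rw [← Finset.sum_filter, Finset.filter_mem_eq_inter, Finset.univ_inter, Finset.sum_const,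
      nsmul_eq_mul]
    field_simp
  obtain ⟨χ, h1, h2⟩ := sampling μ hμ A hA n ⊤ (by
    rw [Nat.card_congr (AddSubgroup.topEquiv (G := G)).toEquiv, Nat.card_eq_fintype_card]; exact hn)
  rw [top_inf_eq] at h1
  refine ⟨χ, h1, ?_⟩
  have h3 : ∑ s, (if s ∈ (⊤ : AddSubgroup G) ⊓ kerAll χ then μ s else 0) =
      ((S.filter fun s => s ∈ kerAll χ).card : ℝ) / S.card := by
    rw [top_inf_eq, Finset.card_filter, div_eq_mul_one_div]
    push_cast
    rw [Finset.sum_mul, ← Finset.sum_subset (Finset.subset_univ S)]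
    · refine Finset.sum_congr rfl fun s hs => ?_
      simp only [μ]
      by_cases h : s ∈ kerAll χ <;> simp [h, hs]
    · intro s _ hs
      simp [μ, hs]
  rw [h3] at h2
  refine le_trans ?_ h2
  have h4 : ∑ s, (if s ∈ (⊤ : AddSubgroup G) then μ s * Psi n (uu A s) else 0) =
      ∑ s, μ s • Psi n (uu A s) := by
    refine Finset.sum_congr rfl fun s _ => ?_
    rw [if_pos (AddSubgroup.mem_top s), smul_eq_mul]
  rw [h4]
  have h5 := (Psi_convex n).map_sum_le (t := univ) (w := μ) (p := fun s => uu A s)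
    (fun s _ => hμ s) hμ1 (fun s _ => Set.mem_univ _)
  refine le_trans (Psi_anti n ?_) h5
  -- the average of uu
  rw [expansion_gen S hS h0 hne A hA] at hexp
  rw [le_div_iff₀ hc0]
  refine le_trans ?_ hexp
  rw [Finset.sum_mul]
  refine Finset.sum_le_sum fun s _ => ?_
  simp only [smul_eq_mul, μ]
  by_cases hs : s ∈ S
  · rw [if_pos hs, mul_assoc]
    apply mul_le_mul_of_nonneg_left _ (by positivity)
    rw [← le_div_iff₀ hc0]
    exact uu_le A hA r hr s (hrS s hs)
  · rw [if_neg hs, zero_mul, zero_mul, zero_mul]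

/-- internal moves of a union of cosets -/
lemma stay_coset (S : Finset G) (W : AddSubgroup G) (U : Finset G)
    (hU : ∀ x ∈ U, ∀ w ∈ W, x + w ∈ U) :
    (U.card : ℝ) * (((S.filter fun s => s ∈ W).card : ℝ) / S.card) ≤ stay (Pc S) U := by
  unfold stay
  rw [← nsmul_eq_mul, ← Finset.sum_const]
  refine Finset.sum_le_sum fun x hx => ?_
  have h1 : ((S.filter fun s => s ∈ W).card : ℝ) / S.card =
      ∑ s ∈ S.filter (fun s => s ∈ W), (1 / (S.card : ℝ)) := by
    rw [Finset.sum_const, nsmul_eq_mul]; ring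
  rw [h1]
  have h2 : ∑ s ∈ S.filter (fun s => s ∈ W), (1 / (S.card : ℝ)) =
      ∑ y ∈ (S.filter (fun s => s ∈ W)).map (addLeftEmbedding x), Pc S x y := by
    rw [Finset.sum_map]
    refine Finset.sum_congr rfl fun s hs => ?_
    simp only [Finset.mem_filter] at hs
    simp [Pc, hs.1]
  rw [h2]
  apply Finset.sum_le_sum_of_subset_of_nonneg
  · intro y hy
    simp only [Finset.mem_map, Finset.mem_filter, addLeftEmbedding_apply] at hy
    obtain ⟨s, hs, rfl⟩ := hy
    exact hU x hx s hs.2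
  · intro y _ _
    exact Pc_nonneg S x y

/-- unions of cosets of prescribed size -/
lemma coset_union (W : AddSubgroup G) (t : ℕ) (hW : Nat.card W ≤ t) (ht : t ≤ Fintype.card G) :
    ∃ U : Finset G, (∀ x ∈ U, ∀ w ∈ W, x + w ∈ U) ∧ U.card ≤ t ∧ t ≤ 2 * U.card := by
  set Wf : Finset G := univ.filter fun x => x ∈ W with hWf
  have hWc : Wf.card = Nat.card W := by
    rw [Nat.card_eq_fintype_card, Fintype.card_subtype]
  have hWcl : ∀ x ∈ Wf, ∀ w ∈ W, x + w ∈ Wf := by
    intro x hx w hw
    simp only [hWf, Finset.mem_filter, Finset.mem_univ, true_and] at hx ⊢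
    exact W.add_mem hx hw
  have hne : (univ.filter fun U : Finset G => (∀ x ∈ U, ∀ w ∈ W, x + w ∈ U) ∧ U.card ≤ t).Nonempty := by
    refine ⟨Wf, ?_⟩
    simp only [Finset.mem_filter, Finset.mem_univ, true_and]
    exact ⟨hWcl, by omega⟩
  obtain ⟨U, hU, hmax⟩ := Finset.exists_max_image _ (fun U : Finset G => U.card) hne
  simp only [Finset.mem_filter, Finset.mem_univ, true_and] at hU hmax
  refine ⟨U, hU.1, hU.2, ?_⟩
  have h1 := hmax Wf ⟨hWcl, by omega⟩
  by_contra hcon
  push Not at hcon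
  have hWpos : 0 < Nat.card W := Nat.card_pos
  have hUne : U ≠ univ := by
    intro h
    have := hU.2
    rw [h, Finset.card_univ] at this
    rw [h, Finset.card_univ] at hcon
    omega
  obtain ⟨x, hx⟩ : ∃ x, x ∉ U := by
    by_contra hno
    push Not at hno
    exact hUne (Finset.eq_univ_of_forall hno)
  set U' := U ∪ Wf.map (addLeftEmbedding x) with hU'
  have hdis : Disjoint U (Wf.map (addLeftEmbedding x)) := by
    rw [Finset.disjoint_left]
    intro y hy hy'
    simp only [Finset.mem_map, addLeftEmbedding_apply] at hy'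
    obtain ⟨w, hw, rfl⟩ := hy'
    simp only [hWf, Finset.mem_filter, Finset.mem_univ, true_and] at hw
    have := hU.1 _ hy (-w) (W.neg_mem hw)
    rw [add_neg_cancel_right] at this
    exact hx this
  have hc' : U'.card = U.card + Nat.card W := by
    rw [hU', Finset.card_union_of_disjoint hdis, Finset.card_map, hWc]
  have h2 := hmax U' ⟨by
    intro y hy w hw
    rw [hU', Finset.mem_union] at hy ⊢
    rcases hy with hy | hy
    · exact Or.inl (hU.1 y hy w hw)
    · right
      simp only [Finset.mem_map, addLeftEmbedding_apply] at hy ⊢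
      obtain ⟨v, hv, rfl⟩ := hy
      exact ⟨v + w, hWcl v hv w hw, by abel⟩, by omega⟩
  omega

/-- **No instances.** -/
theorem no_subgroup (S : Finset G) (hS : ∀ s ∈ S, -s ∈ S) (h0 : (0 : G) ∉ S) (hne : S.Nonempty)
    (eta del : ℝ) (hno : SseNo (cay S hS h0) S.card eta del) (t : ℕ) (ht2 : 2 ≤ t)
    (ht : (t : ℝ) = del * Fintype.card G) (htG : t ≤ Fintype.card G) (W : AddSubgroup G)
    (hW : Nat.card W ≤ 2 * t) :
    ((S.filter fun s => s ∈ W).card : ℝ) / S.card ≤ 3 * eta := by
  set R := ((S.filter fun s => s ∈ W).card : ℝ) / S.card with hR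
  have hR0 : 0 ≤ R := by positivity
  have htr : (2 : ℝ) ≤ t := by exact_mod_cast ht2
  have hcard_no : ∀ T : Finset G, T.card = t → stay (Pc S) T ≤ eta * t := by
    intro T hT
    have hTne : T.Nonempty := by rw [← Finset.card_pos]; omega
    have h1 := hno T hTne (by rw [hT, ht])
    rw [expansion_stay S hS h0 hne T hTne, hT] at h1
    have h2 : stay (Pc S) T / t ≤ eta := by linarith
    rwa [div_le_iff₀ (by linarith)] at h2
  rcases le_or_gt (Nat.card W) t with h | h
  · obtain ⟨U, hU, hUt, hU2⟩ := coset_union W t h htG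
    obtain ⟨T, hUT, hT⟩ := Finset.exists_superset_card_eq hUt htG
    have h1 := stay_coset S W U hU
    rw [← hR] at h1
    have h2 := hcard_no T hT
    have h3 := stay_mono (Pc_nonneg S) hUT
    have h4 : (t : ℝ) ≤ 2 * U.card := by exact_mod_cast hU2
    have h5 : (t : ℝ) / 2 * R ≤ U.card * R := mul_le_mul_of_nonneg_right (by linarith) hR0
    have h6 : t * (R / 2) ≤ t * eta := by linarith
    have h7 := le_of_mul_le_mul_left h6 (by linarith)
    linarith
  · set Wf : Finset G := univ.filter fun x => x ∈ W with hWf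
    have hWc : Wf.card = Nat.card W := by
      rw [Nat.card_eq_fintype_card, Fintype.card_subtype]
    have hWcl : ∀ x ∈ Wf, ∀ w ∈ W, x + w ∈ Wf := by
      intro x hx w hw
      simp only [hWf, Finset.mem_filter, Finset.mem_univ, true_and] at hx ⊢
      exact W.add_mem hx hw
    have h1 := stay_coset S W Wf hWcl
    rw [← hR] at h1
    obtain ⟨T, hT, hTs⟩ := shrink (Pc_nonneg S) (Pc_symm S hS) (Pc_self S h0) t ht2
      (Wf.card - t) Wf (by omega)
    have h2 := hcard_no T hT
    have hw1 : (Wf.card : ℝ) ≤ 2 * t := by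
      rw [hWc]; exact_mod_cast hW
    have hw2 : (t : ℝ) < Wf.card := by
      rw [hWc]; exact_mod_cast h
    set m : ℝ := (Wf.card : ℝ) with hm
    have h3 : m * R * (t * (t - 1)) ≤ eta * t * (m * (m - 1)) := by
      have h4 : 0 ≤ (t : ℝ) * (t - 1) := by nlinarith
      have h5 : 0 ≤ m * (m - 1) := by nlinarith
      calc m * R * (t * (t - 1)) ≤ stay (Pc S) Wf * (t * (t - 1)) := mul_le_mul_of_nonneg_right h1 h4
        _ ≤ stay (Pc S) T * (m * (m - 1)) := hTs
        _ ≤ eta * t * (m * (m - 1)) := mul_le_mul_of_nonneg_right h2 h5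
    have hmt : 0 < m * t := by nlinarith
    have h4 : m * t * (R * (t - 1)) ≤ m * t * (eta * (m - 1)) := by linarith
    have h5 : R * (t - 1) ≤ eta * (m - 1) := le_of_mul_le_mul_left h4 hmt
    have heta : 0 ≤ eta := by
      by_contra hneg
      push Not at hneg
      nlinarith
    nlinarith

end

end Pool.Agent.L7h51.BE
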