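import Mathlib

set_option autoImplicit false
set_option linter.unusedSectionVars false
set_option maxHeartbeats 4000000

/-! The spectral measure of a set in a finite abelian group. -/

namespace Pool.Agent.L7h51.BE

open Finset
open scoped Classical ComplexConjugate

noncomputable section

variable {G : Type} [AddCommGroup G] [Fintype G]

/-- the spectral measure of the set `A` -/
def Ps (A : Finset G) (χ : AddChar G ℂ) : ℝ :=
  ‖∑ x ∈ A, χ x‖ ^ 2 / (Fintype.card G * A.card)

lemma char_neg (χ : AddChar G ℂ) (x : G) : χ (-x) = conj (χ x) := by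
  rw [AddChar.map_neg_eq_inv, Complex.inv_def, Complex.normSq_eq_norm_sq, AddChar.norm_apply]
  simp

lemma normsq (A : Finset G) (χ : AddChar G ℂ) :
    ((‖∑ x ∈ A, χ x‖ ^ 2 : ℝ) : ℂ) = ∑ x ∈ A, ∑ y ∈ A, χ (x - y) := by
  rw [← Complex.normSq_eq_norm_sq, ← Complex.mul_conj, map_sum, Finset.sum_mul_sum]
  refine Finset.sum_congr rfl fun x _ => Finset.sum_congr rfl fun y _ => ?_
  rw [sub_eq_add_neg, AddChar.map_add_eq_mul, char_neg]

lemma sum_char (a : G) : ∑ χ : AddChar G ℂ, χ a = if a = 0 then (Fintype.card G : ℂ) else 0 :=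
  AddChar.sum_apply_eq_ite a

lemma Ps_nonneg (A : Finset G) (χ : AddChar G ℂ) : 0 ≤ Ps A χ := by unfold Ps; positivity

lemma Ps_le (A : Finset G) (χ : AddChar G ℂ) : Ps A χ ≤ A.card / Fintype.card G := by
  have hG : (0 : ℝ) < Fintype.card G := by exact_mod_cast Fintype.card_pos
  unfold Ps
  rcases A.eq_empty_or_nonempty with h | h
  · subst h; simp
  · have hA : (0 : ℝ) < A.card := by exact_mod_cast h.card_pos
    rw [div_le_div_iff₀ (by positivity) hG]
    have h1 : ‖∑ x ∈ A, χ x‖ ≤ A.card := by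
      refine (norm_sum_le _ _).trans ?_
      rw [Finset.sum_congr rfl fun x _ => AddChar.norm_apply χ x]
      simp
    have h2 : ‖∑ x ∈ A, χ x‖ ^ 2 ≤ (A.card : ℝ) ^ 2 := pow_le_pow_left₀ (norm_nonneg _) h1 2
    nlinarith

/-- the Fourier transform of the spectral measure -/
lemma Ps_transform (A : Finset G) (hA : A.Nonempty) (s : G) :
    ∑ χ : AddChar G ℂ, (Ps A χ : ℂ) * χ s = ((A.filter fun x => x + s ∈ A).card : ℂ) / A.card := by
  have hG : (Fintype.card G : ℂ) ≠ 0 := by exact_mod_cast Fintype.card_ne_zero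
  have hA0 : (A.card : ℂ) ≠ 0 := by exact_mod_cast hA.card_pos.ne'
  have h1 : ∀ χ : AddChar G ℂ, (Ps A χ : ℂ) * χ s =
      (∑ x ∈ A, ∑ y ∈ A, χ (x - y + s)) / (Fintype.card G * A.card) := by
    intro χ
    unfold Ps
    push_cast
    have h2 := normsq A χ
    push_cast at h2
    rw [h2, div_mul_eq_mul_div, Finset.sum_mul]
    congr 1
    refine Finset.sum_congr rfl fun x _ => ?_
    rw [Finset.sum_mul]
    refine Finset.sum_congr rfl fun y _ => ?_
    rw [AddChar.map_add_eq_mul]
  rw [Finset.sum_congr rfl fun χ _ => h1 χ, ← Finset.sum_div, Finset.sum_comm]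
  have h2 : ∀ x ∈ A, ∑ χ : AddChar G ℂ, ∑ y ∈ A, χ (x - y + s) =
      if x + s ∈ A then (Fintype.card G : ℂ) else 0 := by
    intro x _
    rw [Finset.sum_comm]
    have h3 : ∀ y, ∑ χ : AddChar G ℂ, χ (x - y + s) =
        if y = x + s then (Fintype.card G : ℂ) else 0 := by
      intro y
      rw [sum_char]
      by_cases h : y = x + s
      · rw [if_pos h, if_pos]; rw [h]; abel
      · rw [if_neg h, if_neg]
        intro h'
        apply h
        have : x + s - y = 0 := by rw [← h']; abel
        exact (sub_eq_zero.1 this).symm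
    rw [Finset.sum_congr rfl fun y _ => h3 y, Finset.sum_ite_eq']
  rw [Finset.sum_congr rfl h2, ← Finset.sum_filter, Finset.sum_const, nsmul_eq_mul]
  field_simp

lemma Ps_sum (A : Finset G) (hA : A.Nonempty) : ∑ χ : AddChar G ℂ, Ps A χ = 1 := by
  have h := Ps_transform A hA 0
  have hA0 : (A.card : ℂ) ≠ 0 := by exact_mod_cast hA.card_pos.ne'
  simp only [AddChar.map_zero_eq_one, mul_one, add_zero] at h
  rw [Finset.filter_true_of_mem (fun x hx => hx), div_self hA0] at h
  exact_mod_cast h

/-- real form -/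
lemma Ps_re (A : Finset G) (hA : A.Nonempty) (s : G) :
    ∑ χ : AddChar G ℂ, Ps A χ * (1 - (χ s).re) = ((A.filter fun x => x + s ∉ A).card : ℝ) / A.card := by
  have hA0 : (0 : ℝ) < A.card := by exact_mod_cast hA.card_pos
  have h := congrArg Complex.re (Ps_transform A hA s)
  rw [Complex.re_sum] at h
  have h1 : ∀ χ : AddChar G ℂ, ((Ps A χ : ℂ) * χ s).re = Ps A χ * (χ s).re := fun χ => by
    rw [Complex.re_ofReal_mul]
  rw [Finset.sum_congr rfl fun χ _ => h1 χ] at h
  have h2 : (((A.filter fun x => x + s ∈ A).card : ℂ) / A.card).re =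
      ((A.filter fun x => x + s ∈ A).card : ℝ) / A.card := by
    have : ((A.filter fun x => x + s ∈ A).card : ℂ) / A.card =
      ((((A.filter fun x => x + s ∈ A).card : ℝ) / A.card : ℝ) : ℂ) := by push_cast; rfl
    rw [this, Complex.ofReal_re]
  rw [h2] at h
  have h3 : ∑ χ : AddChar G ℂ, Ps A χ * (1 - (χ s).re) =
      ∑ χ : AddChar G ℂ, Ps A χ - ∑ χ : AddChar G ℂ, Ps A χ * (χ s).re := by
    rw [← Finset.sum_sub_distrib]
    exact Finset.sum_congr rfl fun χ _ => by ring
  rw [h3, Ps_sum A hA, h, eq_div_iff hA0.ne', sub_mul, div_mul_cancel₀ _ hA0.ne', one_mul]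
  have h4 := Finset.card_filter_add_card_filter_not (s := A) (fun x => x + s ∈ A)
  have h5 : ((A.filter fun x => x + s ∈ A).card : ℝ) + (A.filter fun x => x + s ∉ A).card = A.card := by
    exact_mod_cast h4
  linarith

/-- probability that a random character does not vanish at `s` -/
def uu (A : Finset G) (s : G) : ℝ := ∑ χ : AddChar G ℂ, if χ s = 1 then 0 else Ps A χ

lemma uu_nonneg (A : Finset G) (s : G) : 0 ≤ uu A s := by
  unfold uu
  refine Finset.sum_nonneg fun χ _ => ?_
  split_ifs
  · exact le_refl _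
  · exact Ps_nonneg A χ

/-- `1 - cos (2π/r)` is the distance of the other roots of unity from one -/
lemma re_le_cos (r : ℕ) (hr : 2 ≤ r) (z : ℂ) (hz : z ^ r = 1) (hz1 : z ≠ 1) :
    z.re ≤ Real.cos (2 * Real.pi / r) := by
  have hr0 : (r : ℝ) ≠ 0 := by positivity
  have hrp : (0 : ℝ) < r := by positivity
  have : NeZero r := ⟨by omega⟩
  obtain ⟨k, hk, hkz⟩ := (Complex.mem_rootsOfUnity r (Units.mk0 z (by
    rintro rfl
    rw [zero_pow (by omega)] at hz
    exact zero_ne_one hz))).1 (by
      rw [mem_rootsOfUnity]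
      ext
      simpa using hz) |> fun h => h
  have hkz' : z = Complex.exp (((2 * Real.pi * (k / r) : ℝ) : ℂ) * Complex.I) := by
    have : z = Complex.exp (2 * Real.pi * Complex.I * (k / r)) := by simpa using hkz.symm
    rw [this]
    congr 1
    push_cast
    ring
  have hre : z.re = Real.cos (2 * Real.pi * (k / r)) := by
    rw [hkz', Complex.exp_ofReal_mul_I_re]
  have hk0 : k ≠ 0 := by
    rintro rfl
    apply hz1
    rw [hkz']
    simp
  have hk1 : 1 ≤ k := Nat.one_le_iff_ne_zero.2 hk0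
  rw [hre]
  have hkr : (k : ℝ) < r := by exact_mod_cast hk
  have hk1r : (1 : ℝ) ≤ k := by exact_mod_cast hk1
  rcases le_or_gt (2 * k) r with h | h
  · have h2 : (2 : ℝ) * k ≤ r := by exact_mod_cast h
    apply Real.cos_le_cos_of_nonneg_of_le_pi
    · positivity
    · rw [mul_div_assoc', div_le_iff₀ hrp]
      nlinarith [Real.pi_pos]
    · rw [div_le_iff₀ hrp]
      have : 2 * Real.pi * (k / r) * r = 2 * Real.pi * k := by field_simp
      rw [this]
      nlinarith [Real.pi_pos]
  · have h2 : (r : ℝ) < 2 * k := by exact_mod_cast h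
    have h3 : Real.cos (2 * Real.pi * (k / r)) = Real.cos (2 * Real.pi * ((r - k) / r)) := by
      rw [← Real.cos_two_pi_sub]
      congr 1
      field_simp
    rw [h3]
    have hkr1 : (1 : ℝ) ≤ r - k := by
      have : k + 1 ≤ r := hk
      have : ((k + 1 : ℕ) : ℝ) ≤ r := by exact_mod_cast this
      push_cast at this
      linarith
    apply Real.cos_le_cos_of_nonneg_of_le_pi
    · positivity
    · rw [mul_div_assoc', div_le_iff₀ hrp]
      nlinarith [Real.pi_pos]
    · rw [div_le_iff₀ hrp]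
      have : 2 * Real.pi * ((r - k) / r) * r = 2 * Real.pi * (r - k) := by field_simp
      rw [this]
      nlinarith [Real.pi_pos]

lemma cos_lt_one (r : ℕ) (hr : 2 ≤ r) : Real.cos (2 * Real.pi / r) < 1 := by
  have hrp : (0 : ℝ) < r := by positivity
  have h2 : (2 : ℝ) ≤ r := by exact_mod_cast hr
  have h1 : 2 * Real.pi / r ≤ Real.pi := by
    rw [div_le_iff₀ hrp]; nlinarith [Real.pi_pos]
  have h3 : 0 < 2 * Real.pi / r := by positivity
  rw [← Real.cos_zero]
  exact Real.cos_lt_cos_of_nonneg_of_le_pi (le_refl _) h1 h3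

/-- the number of characters that are not one at `s` -/
lemma uu_le (A : Finset G) (hA : A.Nonempty) (r : ℕ) (hr : 2 ≤ r) (s : G) (hs : r • s = 0) :
    uu A s ≤ ((A.filter fun x => x + s ∉ A).card : ℝ) / A.card / (1 - Real.cos (2 * Real.pi / r)) := by
  have hc := cos_lt_one r hr
  rw [le_div_iff₀ (by linarith), ← Ps_re A hA s]
  unfold uu
  rw [Finset.sum_mul]
  refine Finset.sum_le_sum fun χ _ => ?_
  split_ifs with h
  · rw [h]; simp
  · apply mul_le_mul_of_nonneg_left _ (Ps_nonneg A χ)
    have h1 : (χ s) ^ r = 1 := by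
      rw [← AddChar.map_nsmul_eq_pow, hs, AddChar.map_zero_eq_one]
    have := re_le_cos r hr (χ s) h1 h
    linarith

end

end Pool.Agent.L7h51.BE
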