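import Pool.Agent.L7h51.BE.Fourier

set_option autoImplicit false
set_option linter.unusedSectionVars false
set_option maxHeartbeats 4000000

/-! Choosing characters one after the other. -/

namespace Pool.Agent.L7h51.BE

open Finset
open scoped Classical ComplexConjugate

noncomputable section

variable {G : Type} [AddCommGroup G] [Fintype G]

/-- The kernel of a character. -/
def kerC (χ : AddChar G ℂ) : AddSubgroup G where
  carrier := {x | χ x = 1}
  zero_mem' := χ.map_zero_eq_one
  add_mem' := by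
    intro a b ha hb
    show χ (a + b) = 1
    rw [AddChar.map_add_eq_mul, show χ a = 1 from ha, show χ b = 1 from hb, mul_one]
  neg_mem' := by
    intro a ha
    show χ (-a) = 1
    rw [AddChar.map_neg_eq_inv, show χ a = 1 from ha, inv_one]

lemma mem_kerC {χ : AddChar G ℂ} {x : G} : x ∈ kerC χ ↔ χ x = 1 := Iff.rfl

/-- The common kernel of characters. -/
def kerAll {n : ℕ} (χ : Fin n → AddChar G ℂ) : AddSubgroup G := ⨅ i, kerC (χ i)

lemma mem_kerAll {n : ℕ} {χ : Fin n → AddChar G ℂ} {x : G} : x ∈ kerAll χ ↔ ∀ i, χ i x = 1 := by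
  unfold kerAll
  rw [AddSubgroup.mem_iInf]
  rfl

/-- the loss factor -/
def fac (j : ℕ) (u : ℝ) : ℝ := max 0 (1 - u / (1 - (1 / 2) ^ (j + 1)))

/-- the product of the loss factors -/
def Psi (n : ℕ) (u : ℝ) : ℝ := ∏ j ∈ range n, fac j u

lemma half_pow (j : ℕ) : (1 / 2 : ℝ) ^ (j + 1) ≤ 1 / 2 := by
  rw [pow_succ]
  have : (1 / 2 : ℝ) ^ j ≤ 1 := pow_le_one₀ (by norm_num) (by norm_num)
  linarith

lemma fac_nonneg (j : ℕ) (u : ℝ) : 0 ≤ fac j u := le_max_left _ _

lemma fac_anti (j : ℕ) : Antitone (fac j) := by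
  intro u v h
  unfold fac
  apply max_le_max (le_refl _)
  have h1 := half_pow j
  have : u / (1 - (1 / 2) ^ (j + 1)) ≤ v / (1 - (1 / 2) ^ (j + 1)) :=
    div_le_div_of_nonneg_right h (by linarith)
  linarith

lemma fac_le_one (j : ℕ) (u : ℝ) (hu : 0 ≤ u) : fac j u ≤ 1 := by
  unfold fac
  apply max_le zero_le_one
  have h1 := half_pow j
  have : 0 ≤ u / (1 - (1 / 2) ^ (j + 1)) := div_nonneg hu (by linarith)
  linarith

lemma fac_convex (j : ℕ) : ConvexOn ℝ Set.univ (fac j) := by
  unfold fac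
  apply ConvexOn.sup (convexOn_const 0 convex_univ)
  refine ⟨convex_univ, fun x _ y _ a b _ _ hab => le_of_eq ?_⟩
  simp only [smul_eq_mul]
  have : b = 1 - a := by linarith
  subst this
  ring

lemma Psi_nonneg (n : ℕ) (u : ℝ) : 0 ≤ Psi n u := Finset.prod_nonneg fun j _ => fac_nonneg j u

lemma Psi_succ (n : ℕ) (u : ℝ) : Psi (n + 1) u = Psi n u * fac n u := by
  unfold Psi; rw [Finset.prod_range_succ]

lemma Psi_le (n : ℕ) (u : ℝ) (hu : 0 ≤ u) : Psi (n + 1) u ≤ Psi n u := by
  rw [Psi_succ]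
  exact mul_le_of_le_one_right (Psi_nonneg n u) (fac_le_one n u hu)

lemma Psi_anti (n : ℕ) : Antitone (Psi n) := by
  intro u v h
  unfold Psi
  exact Finset.prod_le_prod (fun j _ => fac_nonneg j v) fun j _ => fac_anti j h

lemma Psi_convex (n : ℕ) : ConvexOn ℝ Set.univ (Psi n) := by
  induction n with
  | zero =>
    have : Psi 0 = fun _ => (1 : ℝ) := by
      funext u; unfold Psi; simp
    rw [this]
    exact convexOn_const 1 convex_univ
  | succ n ih =>
    have : Psi (n + 1) = Psi n * fac n := by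
      funext u; rw [Psi_succ]; rfl
    rw [this]
    refine ih.mul (fac_convex n) (fun x _ => Psi_nonneg n x) (fun x _ => fac_nonneg n x) ?_
    intro x _ y _ h
    have : y ≤ x := by
      by_contra hcon
      push Not at hcon
      exact absurd (fac_anti n hcon.le) (not_le.2 h)
    exact Psi_anti n this

/-- the number of characters vanishing on `W`, weighted -/
lemma mass_annih (A : Finset G) (W : AddSubgroup G) :
    (∑ χ : AddChar G ℂ, if (∀ w ∈ W, χ w = 1) then Ps A χ else 0) * Nat.card W ≤ A.card := by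
  have hG : (0 : ℝ) < Fintype.card G := by exact_mod_cast Fintype.card_pos
  set Wf : Finset G := univ.filter fun x => x ∈ W with hWf
  have hWc : Wf.card = Nat.card W := by
    rw [Nat.card_eq_fintype_card, Fintype.card_subtype]
  have hWne : Wf.Nonempty := ⟨0, by simp [hWf, W.zero_mem]⟩
  have hW0 : (0 : ℝ) < Wf.card := by exact_mod_cast hWne.card_pos
  -- number of characters
  have h1 : ((univ.filter fun χ : AddChar G ℂ => ∀ w ∈ W, χ w = 1).card : ℝ) * Wf.card ≤
      Fintype.card G := by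
    have h2 := Ps_sum Wf hWne
    have h3 : ∑ χ ∈ univ.filter (fun χ : AddChar G ℂ => ∀ w ∈ W, χ w = 1), Ps Wf χ ≤ 1 := by
      rw [← h2]
      exact Finset.sum_le_sum_of_subset_of_nonneg (Finset.filter_subset _ _) fun χ _ _ =>
        Ps_nonneg Wf χ
    have h4 : ∀ χ ∈ univ.filter (fun χ : AddChar G ℂ => ∀ w ∈ W, χ w = 1),
        Ps Wf χ = Wf.card / Fintype.card G := by
      intro χ hχ
      simp only [Finset.mem_filter, Finset.mem_univ, true_and] at hχ
      unfold Ps
      have : ∑ x ∈ Wf, χ x = Wf.card := by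
        have : ∀ x ∈ Wf, χ x = 1 := fun x hx => hχ x (by simpa [hWf] using hx)
        rw [Finset.sum_congr rfl this]; simp
      rw [this, Complex.norm_natCast]
      field_simp
    rw [Finset.sum_congr rfl h4, Finset.sum_const, nsmul_eq_mul, mul_div_assoc', div_le_one hG] at h3
    exact h3
  rw [← hWc]
  have h2 : ∑ χ : AddChar G ℂ, (if (∀ w ∈ W, χ w = 1) then Ps A χ else 0) ≤
      ((univ.filter fun χ : AddChar G ℂ => ∀ w ∈ W, χ w = 1).card : ℝ) * (A.card / Fintype.card G) := by
    rw [← Finset.sum_filter, ← nsmul_eq_mul, ← Finset.sum_const]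
    exact Finset.sum_le_sum fun χ _ => Ps_le A χ
  calc (∑ χ : AddChar G ℂ, if (∀ w ∈ W, χ w = 1) then Ps A χ else 0) * Wf.card
      ≤ (((univ.filter fun χ : AddChar G ℂ => ∀ w ∈ W, χ w = 1).card : ℝ) *
        (A.card / Fintype.card G)) * Wf.card := mul_le_mul_of_nonneg_right h2 hW0.le
    _ = (((univ.filter fun χ : AddChar G ℂ => ∀ w ∈ W, χ w = 1).card : ℝ) * Wf.card) *
        (A.card / Fintype.card G) := by ring
    _ ≤ Fintype.card G * (A.card / Fintype.card G) := by
        apply mul_le_mul_of_nonneg_right h1 (by positivity)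
    _ = A.card := by field_simp

/-- one step -/
lemma step (μ : G → ℝ) (hμ : ∀ s, 0 ≤ μ s) (A : Finset G) (hA : A.Nonempty) (n : ℕ)
    (W : AddSubgroup G) (hW : (2 : ℝ) ^ (n + 1) * A.card < Nat.card W) :
    ∃ χ : AddChar G ℂ, ¬ W ≤ kerC χ ∧
      ∑ s, (if s ∈ W then μ s * Psi (n + 1) (uu A s) else 0) ≤
      ∑ s, (if s ∈ W ⊓ kerC χ then μ s * Psi n (uu A s) else 0) := by
  have hA0 : (0 : ℝ) < A.card := by exact_mod_cast hA.card_pos
  set q := ∑ χ : AddChar G ℂ, (if (∀ w ∈ W, χ w = 1) then Ps A χ else 0) with hq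
  have hWpos : (0 : ℝ) < Nat.card W := lt_trans (by positivity) hW
  have hq1 : q < (1 / 2) ^ (n + 1) := by
    have h1 := mass_annih A W
    rw [← hq] at h1
    have h2 : q * ((2 : ℝ) ^ (n + 1) * A.card) ≤ A.card := by
      refine le_trans ?_ h1
      apply mul_le_mul_of_nonneg_left hW.le
      exact Finset.sum_nonneg fun χ _ => by split_ifs; exacts [Ps_nonneg A χ, le_refl _]
    by_contra hcon
    push Not at hcon
    have hq0 : 0 < q := lt_of_lt_of_le (by positivity) hcon
    have h3 : q * ((2 : ℝ) ^ (n + 1) * A.card) < q * Nat.card W := mul_lt_mul_of_pos_left hW hq0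
    have h4 : (1 / 2 : ℝ) ^ (n + 1) * Nat.card W ≤ q * Nat.card W :=
      mul_le_mul_of_nonneg_right hcon hWpos.le
    have h5 : (1 / 2 : ℝ) ^ (n + 1) * ((2 : ℝ) ^ (n + 1) * A.card) = A.card := by
      rw [← mul_assoc, ← mul_pow]; norm_num
    have h6 : (1 / 2 : ℝ) ^ (n + 1) * ((2 : ℝ) ^ (n + 1) * A.card) <
        (1 / 2 : ℝ) ^ (n + 1) * Nat.card W := mul_lt_mul_of_pos_left hW (by positivity)
    linarith
  have hq0 : 0 ≤ q := Finset.sum_nonneg fun χ _ => by split_ifs; exacts [Ps_nonneg A χ, le_refl _]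
  have hhalf := half_pow n
  have hq2 : 0 < 1 - q := by linarith
  -- the functional
  let F : AddChar G ℂ → ℝ := fun χ => ∑ s, (if s ∈ W ⊓ kerC χ then μ s * Psi n (uu A s) else 0)
  -- the average
  have hps := Ps_sum A hA
  have hprob : ∀ s ∈ W, ∑ χ : AddChar G ℂ, (if (∀ w ∈ W, χ w = 1) then 0 else
      (if χ s = 1 then Ps A χ else 0)) = 1 - uu A s - q := by
    intro s hs
    unfold uu
    rw [hq, ← hps, ← Finset.sum_sub_distrib, ← Finset.sum_sub_distrib]
    refine Finset.sum_congr rfl fun χ _ => ?_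
    by_cases h1 : ∀ w ∈ W, χ w = 1
    · rw [if_pos h1, if_pos h1, if_pos (h1 s hs)]; ring
    · rw [if_neg h1, if_neg h1]
      by_cases h2 : χ s = 1
      · rw [if_pos h2, if_pos h2]; ring
      · rw [if_neg h2, if_neg h2]; ring
  have hsum : ∑ χ : AddChar G ℂ, (if (∀ w ∈ W, χ w = 1) then 0 else Ps A χ * F χ) =
      ∑ s, (if s ∈ W then μ s * Psi n (uu A s) * (1 - uu A s - q) else 0) := by
    have h1 : ∀ χ : AddChar G ℂ, (if (∀ w ∈ W, χ w = 1) then 0 else Ps A χ * F χ) =
        ∑ s, (if s ∈ W then μ s * Psi n (uu A s) * (if (∀ w ∈ W, χ w = 1) then 0 else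
          (if χ s = 1 then Ps A χ else 0)) else 0) := by
      intro χ
      by_cases h : ∀ w ∈ W, χ w = 1
      · rw [if_pos h]
        symm
        apply Finset.sum_eq_zero
        intro s _
        rw [if_pos h, mul_zero]
        split_ifs <;> rfl
      · rw [if_neg h]
        simp only [F]
        rw [Finset.mul_sum]
        refine Finset.sum_congr rfl fun s _ => ?_
        rw [if_neg h]
        by_cases hs : s ∈ W
        · by_cases hχ : χ s = 1
          · have h3 : s ∈ W ⊓ kerC χ := ⟨hs, hχ⟩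
            rw [if_pos h3, if_pos hs, if_pos hχ]; ring
          · have h3 : ¬ s ∈ W ⊓ kerC χ := fun h => hχ h.2
            rw [if_neg h3, if_pos hs, if_neg hχ]; ring
        · have h3 : ¬ s ∈ W ⊓ kerC χ := fun h => hs h.1
          rw [if_neg h3, if_neg hs]; ring
    rw [Finset.sum_congr rfl fun χ _ => h1 χ, Finset.sum_comm]
    refine Finset.sum_congr rfl fun s _ => ?_
    by_cases hs : s ∈ W
    · simp only [if_pos hs]
      rw [← Finset.mul_sum, hprob s hs]
    · simp [if_neg hs]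
  have htot : ∑ χ : AddChar G ℂ, (if (∀ w ∈ W, χ w = 1) then 0 else Ps A χ) = 1 - q := by
    rw [hq, ← hps, ← Finset.sum_sub_distrib]
    refine Finset.sum_congr rfl fun χ _ => ?_
    split_ifs <;> ring
  set L := ∑ s, (if s ∈ W then μ s * Psi (n + 1) (uu A s) else 0) with hL
  have hlow : (1 - q) * L ≤
      ∑ s, (if s ∈ W then μ s * Psi n (uu A s) * (1 - uu A s - q) else 0) := by
    rw [hL, Finset.mul_sum]
    refine Finset.sum_le_sum fun s _ => ?_
    by_cases hs : s ∈ W
    · rw [if_pos hs, if_pos hs, Psi_succ]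
      have h0 : 0 ≤ 1 - uu A s - q := by
        rw [← hprob s hs]
        exact Finset.sum_nonneg fun χ _ => by
          split_ifs
          exacts [le_refl _, Ps_nonneg A χ, le_refl _]
      have h1 : (1 - q) * fac n (uu A s) ≤ 1 - uu A s - q := by
        unfold fac
        rw [mul_max_of_nonneg _ _ hq2.le]
        apply max_le
        · rw [mul_zero]; exact h0
        · have hu := uu_nonneg A s
          have h2 : uu A s ≤ (1 - q) * (uu A s / (1 - (1 / 2) ^ (n + 1))) := by
            rw [mul_div_assoc', le_div_iff₀ (by linarith), mul_comm]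
            exact mul_le_mul_of_nonneg_right (by linarith) hu
          nlinarith
      have h2 : 0 ≤ μ s * Psi n (uu A s) := mul_nonneg (hμ s) (Psi_nonneg _ _)
      calc (1 - q) * (μ s * (Psi n (uu A s) * fac n (uu A s)))
          = (μ s * Psi n (uu A s)) * ((1 - q) * fac n (uu A s)) := by ring
        _ ≤ (μ s * Psi n (uu A s)) * (1 - uu A s - q) := mul_le_mul_of_nonneg_left h1 h2
    · rw [if_neg hs, if_neg hs, mul_zero]
  by_contra hcon
  push Not at hcon
  have hlt : ∑ χ : AddChar G ℂ, (if (∀ w ∈ W, χ w = 1) then 0 else Ps A χ * F χ) < (1 - q) * L := by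
    rw [← htot, Finset.sum_mul]
    have hne : ∃ χ : AddChar G ℂ, ¬ (∀ w ∈ W, χ w = 1) ∧ 0 < Ps A χ := by
      by_contra hno
      push Not at hno
      have h1 : ∑ χ : AddChar G ℂ, (if (∀ w ∈ W, χ w = 1) then 0 else Ps A χ) ≤ 0 := by
        apply Finset.sum_nonpos
        intro χ _
        split_ifs with h
        · exact le_refl _
        · exact hno χ (by push Not at h; exact h)
      rw [htot] at h1
      linarith
    obtain ⟨χ₀, hχ1, hχ2⟩ := hne
    apply Finset.sum_lt_sum
    · intro χ _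
      by_cases h : ∀ w ∈ W, χ w = 1
      · rw [if_pos h, if_pos h, zero_mul]
      · rw [if_neg h, if_neg h]
        exact mul_le_mul_of_nonneg_left (hcon χ (fun h' => h fun w hw => h' hw)).le (Ps_nonneg A χ)
    · refine ⟨χ₀, Finset.mem_univ _, ?_⟩
      rw [if_neg hχ1, if_neg hχ1]
      exact mul_lt_mul_of_pos_left (hcon χ₀ (fun h' => hχ1 fun w hw => h' hw)) hχ2
  rw [hsum] at hlt
  linarith

lemma card_inf_ker (W : AddSubgroup G) (χ : AddChar G ℂ) (h : ¬ W ≤ kerC χ) :
    2 * Nat.card (W ⊓ kerC χ : AddSubgroup G) ≤ Nat.card W := by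
  have hle : W ⊓ kerC χ ≤ W := inf_le_left
  have hdvd : Nat.card (W ⊓ kerC χ : AddSubgroup G) ∣ Nat.card W := AddSubgroup.card_dvd_of_le hle
  obtain ⟨c, hc⟩ := hdvd
  have hne : W ⊓ kerC χ ≠ W := fun h' => h (inf_eq_left.1 h')
  have hpos : 0 < Nat.card W := Nat.card_pos
  have hpos' : 0 < Nat.card (W ⊓ kerC χ : AddSubgroup G) := Nat.card_pos
  have hc1 : c ≠ 1 := by
    rintro rfl
    apply hne
    apply SetLike.coe_injective
    refine Set.eq_of_subset_of_ncard_le hle ?_ (Set.toFinite _)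
    have e1 : (W : Set G).ncard = Nat.card W := rfl
    have e2 : ((W ⊓ kerC χ : AddSubgroup G) : Set G).ncard = Nat.card (W ⊓ kerC χ : AddSubgroup G) := rfl
    rw [e1, e2]
    omega
  have hc0 : c ≠ 0 := by
    rintro rfl
    omega
  have hc2 : 2 ≤ c := by omega
  rw [hc]
  nlinarith

/-- **Sampling.** -/
theorem sampling (μ : G → ℝ) (hμ : ∀ s, 0 ≤ μ s) (A : Finset G) (hA : A.Nonempty) :
    ∀ (n : ℕ) (W : AddSubgroup G), (Nat.card W : ℝ) ≤ 2 ^ (n + 1) * A.card →
      ∃ χ : Fin n → AddChar G ℂ, (Nat.card (W ⊓ kerAll χ : AddSubgroup G) : ℝ) ≤ 2 * A.card ∧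
        ∑ s, (if s ∈ W then μ s * Psi n (uu A s) else 0) ≤
          ∑ s, (if s ∈ W ⊓ kerAll χ then μ s else 0) := by
  intro n
  induction n with
  | zero =>
    intro W hW
    refine ⟨Fin.elim0, ?_, ?_⟩
    · have h1 : W ⊓ kerAll (Fin.elim0 : Fin 0 → AddChar G ℂ) = W := by
        ext x
        simp only [AddSubgroup.mem_inf, mem_kerAll]
        exact ⟨fun h => h.1, fun h => ⟨h, fun i => i.elim0⟩⟩
      rw [h1]
      rw [zero_add, pow_one] at hW
      exact hW
    · refine Finset.sum_le_sum fun s _ => ?_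
      have h1 : (s ∈ W ⊓ kerAll (Fin.elim0 : Fin 0 → AddChar G ℂ)) ↔ s ∈ W := by
        simp only [AddSubgroup.mem_inf, mem_kerAll]
        exact ⟨fun h => h.1, fun h => ⟨h, fun i => i.elim0⟩⟩
      simp only [h1]
      split_ifs
      · unfold Psi; simp
      · exact le_refl _
  | succ n ih =>
    intro W hW
    have key : ∀ χ₀ : AddChar G ℂ, ∀ χ : Fin n → AddChar G ℂ,
        W ⊓ kerAll (Fin.cons χ₀ χ : Fin (n + 1) → AddChar G ℂ) = (W ⊓ kerC χ₀) ⊓ kerAll χ := by
      intro χ₀ χ
      ext x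
      simp only [AddSubgroup.mem_inf, mem_kerAll, mem_kerC, Fin.forall_fin_succ, Fin.cons_zero,
        Fin.cons_succ]
      tauto
    rcases le_or_gt (Nat.card W : ℝ) (2 ^ (n + 1) * A.card) with h | h
    · obtain ⟨χ, h1, h2⟩ := ih W h
      have h0 : W ⊓ kerC (0 : AddChar G ℂ) = W := by
        ext x
        simp only [AddSubgroup.mem_inf, mem_kerC]
        exact ⟨fun h => h.1, fun h => ⟨h, by simp⟩⟩
      refine ⟨Fin.cons 0 χ, ?_, ?_⟩
      · rw [key, h0]; exact h1
      · rw [key, h0]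
        refine le_trans (Finset.sum_le_sum fun s _ => ?_) h2
        split_ifs
        · exact mul_le_mul_of_nonneg_left (Psi_le n _ (uu_nonneg A s)) (hμ s)
        · exact le_refl _
    · obtain ⟨χ₀, hχ, hstep⟩ := step μ hμ A hA n W h
      have hcard := card_inf_ker W χ₀ hχ
      obtain ⟨χ, h1, h2⟩ := ih (W ⊓ kerC χ₀) (by
        have h3 : (2 : ℝ) * Nat.card (W ⊓ kerC χ₀ : AddSubgroup G) ≤ Nat.card W := by
          exact_mod_cast hcard
        rw [pow_succ] at hW
        linarith)
      refine ⟨Fin.cons χ₀ χ, ?_, ?_⟩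
      · rw [key]; exact h1
      · rw [key]; exact hstep.trans h2

end

end Pool.Agent.L7h51.BE
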